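import Pool.Agent.Lib.MP_95ac01_nt.Iface

/-!
# MP_95ac01_nt: modules COV, REG2 (helper22)
-/

set_option autoImplicit false

namespace Cub.H22

open Finset Cub

/-- rounding a real vector of a lattice coset -/
theorem cover {A r : ℕ} (v : Fin r → Mon → ℤ) (hr : r ≤ 20)
    (hv : ∀ k m, |v k m| ≤ 64 * (A : ℤ) ^ 2) (g : Mon → ℝ) (c : Mon → ℤ) (b : ℝ)
    (h : g - cc ℝ c ∈ Submodule.span ℝ (Set.range fun k => cc ℝ (v k))) (hg : ∀ m, |g m| ≤ b) :
    ∃ z : Fin r → ℤ, ∀ m, |(((c + ∑ k, z k • v k) m : ℤ) : ℝ)| ≤ b + 1280 * (A : ℝ) ^ 2 := by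
  rw [Submodule.mem_span_range_iff_exists_fun] at h
  obtain ⟨θ, hθ⟩ := h
  refine ⟨fun k => ⌊θ k⌋, fun m => ?_⟩
  have h1 := congrFun hθ m
  simp only [Finset.sum_apply, Pi.smul_apply, smul_eq_mul, Pi.sub_apply, cc] at h1
  have e : (((c + ∑ k, ⌊θ k⌋ • v k) m : ℤ) : ℝ) = g m - ∑ k, Int.fract (θ k) * (v k m : ℝ) := by
    have h2 : g m = (c m : ℝ) + ∑ k, θ k * (v k m : ℝ) := by rw [h1]; ring
    rw [h2, Pi.add_apply, Finset.sum_apply]
    push_cast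
    simp only [Pi.smul_apply, smul_eq_mul]
    push_cast
    rw [add_sub_assoc, ← Finset.sum_sub_distrib]
    congr 1
    refine Finset.sum_congr rfl fun k _ => ?_
    rw [← sub_mul, Int.fract]
    congr 1
    ring
  rw [e]
  have h3 : |∑ k, Int.fract (θ k) * (v k m : ℝ)| ≤ 1280 * (A : ℝ) ^ 2 := by
    refine (Finset.abs_sum_le_sum_abs _ _).trans ?_
    have h4 : ∀ k ∈ (Finset.univ : Finset (Fin r)), |Int.fract (θ k) * (v k m : ℝ)| ≤
        64 * (A : ℝ) ^ 2 := by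
      intro k _
      rw [abs_mul, abs_of_nonneg (Int.fract_nonneg _)]
      have h5 : |(v k m : ℝ)| ≤ 64 * (A : ℝ) ^ 2 := by exact_mod_cast hv k m
      have h6 := Int.fract_lt_one (θ k)
      have h7 := Int.fract_nonneg (θ k)
      nlinarith [abs_nonneg (v k m : ℝ)]
    refine (Finset.sum_le_sum h4).trans ?_
    rw [Finset.sum_const, Finset.card_univ, Fintype.card_fin, nsmul_eq_mul]
    have : (r : ℝ) ≤ 20 := by exact_mod_cast hr
    nlinarith [sq_nonneg (A : ℝ)]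
  calc |g m - ∑ k, Int.fract (θ k) * (v k m : ℝ)| ≤ |g m| + |∑ k, Int.fract (θ k) * (v k m : ℝ)| :=
        abs_sub _ _
    _ ≤ _ := add_le_add (hg m) h3

theorem ev_comb {r : ℕ} (v : Fin r → Mon → ℤ) (z : Fin r → ℤ) (c : Mon → ℤ) (x : Fin 4 → ℤ)
    (h : ∀ k, ev (v k) x = 0) : ev (c + ∑ k, z k • v k) x = ev c x := by
  rw [ev_add, ev_sum]
  simp only [ev_smul, h, mul_zero, Finset.sum_const_zero, add_zero]

/-- Module COV, second half -/
theorem cov2 (h2 : Span2Statement) : Cov2Statement := by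
  intro A x y hx hy hw g c b gx gy hb
  obtain ⟨r, v, hr, -, hv0, hvb, hsp⟩ := h2 A x y hx hy hw
  have hm := hsp (g - cc ℝ c) (by rw [ev_sub, ev_cast, gx, sub_self])
    (by rw [ev_sub, ev_cast, gy, sub_self])
  obtain ⟨z, hz⟩ := cover v hr hvb g c b hm hb
  refine ⟨c + ∑ k, z k • v k, ev_comb v z c x fun k => (hv0 k).1,
    ev_comb v z c y fun k => (hv0 k).2, hz⟩

/-- Module COV, first half -/
theorem cov1 (h1 : Span1Statement) : Cov1Statement := by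
  intro A x hx hx0 g c b gx hb
  obtain ⟨r, v, hr, -, hv0, hvb, hsp⟩ := h1 A x hx hx0
  have hm := hsp (g - cc ℝ c) (by rw [ev_sub, ev_cast, gx, sub_self])
  obtain ⟨z, hz⟩ := cover v hr hvb g c b hm hb
  exact ⟨c + ∑ k, z k • v k, ev_comb v z c x hv0, hz⟩

/-- Module COV -/
theorem cov (h2 : Span2Statement) (h1 : Span1Statement) : Cov2Statement ∧ Cov1Statement :=
  ⟨cov2 h2, cov1 h1⟩

/-- Module REG2 -/
theorem reg2 (hR : RegStatement) (h2 : Span2Statement) : Reg2Statement := by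
  classical
  intro A x y hx hy hw s t hs hst
  obtain ⟨r, v, hr, hli, hv0, hvb, hsp⟩ := h2 A x y hx hy hw
  let L : AddSubgroup (Mon → ℤ) :=
    { carrier := {c | ev c x = 0 ∧ ev c y = 0}
      zero_mem' := ⟨ev_zero x, ev_zero y⟩
      add_mem' := by
        rintro a b ⟨h1, h2⟩ ⟨h3, h4⟩
        exact ⟨by rw [ev_add, h1, h3, add_zero], by rw [ev_add, h2, h4, add_zero]⟩
      neg_mem' := by
        rintro a ⟨h1, h2⟩
        exact ⟨by rw [ev_neg, h1, neg_zero], by rw [ev_neg, h2, neg_zero]⟩ }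
  have hrV : r * (64 * A ^ 2) ≤ 1280 * A ^ 2 := by nlinarith [Nat.zero_le (A ^ 2)]
  have key := hR r (64 * A ^ 2) v L hli (fun k m => by exact_mod_cast hvb k m) (fun k => hv0 k)
    (fun c hc => hsp _ (by rw [ev_cast, hc.1, Int.cast_zero]) (by rw [ev_cast, hc.2, Int.cast_zero]))
    s t (hrV.trans hs)
  have e : ∀ t : ℕ, ((box t).filter (· ∈ L)).card = n2 x y 0 0 t := by
    intro t
    unfold n2
    congr 1
    ext c
    rw [Finset.mem_filter, Finset.mem_filter]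
    rfl
  rw [e, e] at key
  have hV : ((r : ℝ) * ((64 * A ^ 2 : ℕ) : ℝ)) ≤ 1280 * (A : ℝ) ^ 2 := by exact_mod_cast hrV
  have hs' : 1280 * (A : ℝ) ^ 2 ≤ s := by exact_mod_cast hs
  have hst' : (s : ℝ) ≤ t := by exact_mod_cast hst
  set V : ℝ := (r : ℝ) * ((64 * A ^ 2 : ℕ) : ℝ) with hVdef
  have hV0 : 0 ≤ V := by positivity
  set a : ℝ := (s : ℝ) - 1280 * (A : ℝ) ^ 2 with ha
  set b : ℝ := (t : ℝ) + 1280 * (A : ℝ) ^ 2 with hb
  have ha0 : 0 ≤ a := by rw [ha]; linarith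
  have hab : a ≤ b := by rw [ha, hb]; nlinarith [sq_nonneg (A : ℝ)]
  have hb0 : 0 ≤ b := ha0.trans hab
  have h1 : a ^ 20 ≤ ((s : ℝ) - V) ^ r * b ^ (20 - r) := by
    have : a ^ 20 = a ^ r * a ^ (20 - r) := by rw [← pow_add]; congr 1; omega
    rw [this]
    apply mul_le_mul (pow_le_pow_left₀ ha0 (by rw [ha]; linarith) r)
      (pow_le_pow_left₀ ha0 hab _) (pow_nonneg ha0 _) (pow_nonneg (by linarith) _)
  have h3 : ((t : ℝ) + V) ^ r * b ^ (20 - r) ≤ b ^ 20 := by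
    have : b ^ 20 = b ^ r * b ^ (20 - r) := by rw [← pow_add]; congr 1; omega
    rw [this]
    apply mul_le_mul_of_nonneg_right (pow_le_pow_left₀ (by positivity) (by rw [hb]; linarith) r)
      (pow_nonneg hb0 _)
  calc (n2 x y 0 0 t : ℝ) * a ^ 20 ≤ (n2 x y 0 0 t : ℝ) * (((s : ℝ) - V) ^ r * b ^ (20 - r)) :=
        mul_le_mul_of_nonneg_left h1 (Nat.cast_nonneg _)
    _ = ((n2 x y 0 0 t : ℝ) * ((s : ℝ) - V) ^ r) * b ^ (20 - r) := by ring
    _ ≤ ((n2 x y 0 0 s : ℝ) * ((t : ℝ) + V) ^ r) * b ^ (20 - r) :=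
        mul_le_mul_of_nonneg_right key (pow_nonneg hb0 _)
    _ = (n2 x y 0 0 s : ℝ) * (((t : ℝ) + V) ^ r * b ^ (20 - r)) := by ring
    _ ≤ (n2 x y 0 0 s : ℝ) * b ^ 20 := mul_le_mul_of_nonneg_left h3 (Nat.cast_nonneg _)

end Cub.H22
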