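import Pool.Agent.Lib.MP_95ac01_nt.H22.Upper1

/-!
# MP_95ac01_nt: module MAIN2 (helper22)
-/

set_option autoImplicit false

namespace Cub.H22

open Finset Cub

/-- translation by a form of size `S` -/
theorem n2_shift (x y : Fin 4 → ℤ) (r s r' s' : ℤ) (H S : ℕ) (c₀ : Mon → ℤ)
    (hx : ev c₀ x = r' - r) (hy : ev c₀ y = s' - s) (hc : ∀ m, |c₀ m| ≤ (S : ℤ)) :
    n2 x y r s H ≤ n2 x y r' s' (H + S) := by
  classical
  unfold n2
  apply Finset.card_le_card_of_injOn (fun c => c + c₀)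
  · intro c h
    rw [mem_coe, mem_filter, mem_box] at h
    rw [mem_coe, mem_filter, mem_box]
    refine ⟨fun m => ?_, ?_, ?_⟩
    · change |c m + c₀ m| ≤ _
      have h1 := h.1 m
      have h2 := hc m
      push_cast
      exact (abs_add_le _ _).trans (add_le_add h1 h2)
    · change ev (c + c₀) x = r'
      rw [ev_add, h.2.1, hx]
      ring
    · change ev (c + c₀) y = s'
      rw [ev_add, h.2.2, hy]
      ring
  · intro c _ c' _ h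
    exact add_left_injective c₀ h

theorem abs_mv_le {B : ℕ} {x : Fin 4 → ℤ} (h : ∀ i, |x i| ≤ (B : ℤ)) (m : Mon) :
    |mv m x| ≤ (B : ℤ) ^ 3 := by
  obtain ⟨i, j, k, rfl⟩ := exists_mon3 m
  rw [mv_mon3, abs_mul, abs_mul]
  have hi := h i
  have hj := h j
  have hk := h k
  calc |x i| * |x j| * |x k| ≤ (B : ℤ) * B * B := by gcongr
    _ = (B : ℤ) ^ 3 := by ring

/-- real solutions by Cramer's rule -/
theorem cramer (m m' : Mon) (x y : Fin 4 → ℤ) (r s : ℤ) (B W : ℕ)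
    (hxB : ∀ i, |x i| ≤ (B : ℤ)) (hyB : ∀ i, |y i| ≤ (B : ℤ)) (hr : |r| ≤ (W : ℤ))
    (hs : |s| ≤ (W : ℤ)) (hD : mv m x * mv m' y - mv m' x * mv m y ≠ 0) :
    ∃ g : Mon → ℝ, ev g (cx ℝ x) = r ∧ ev g (cx ℝ y) = s ∧ ∀ k, |g k| ≤
      4 * W * (B : ℝ) ^ 3 / |((mv m x * mv m' y - mv m' x * mv m y : ℤ) : ℝ)| := by
  set D : ℤ := mv m x * mv m' y - mv m' x * mv m y with hDdef
  have hDR : (D : ℝ) ≠ 0 := by exact_mod_cast hD
  have hDpos : 0 < |(D : ℝ)| := abs_pos.2 hDR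
  set θ : ℝ := (r * (mv m' y : ℤ) - s * (mv m' x : ℤ)) / D with hθ
  set θ' : ℝ := (s * (mv m x : ℤ) - r * (mv m y : ℤ)) / D with hθ'
  have hDe : (D : ℝ) = (mv m x : ℤ) * (mv m' y : ℤ) - (mv m' x : ℤ) * (mv m y : ℤ) := by
    rw [hDdef]
    push_cast
    ring
  have bound : ∀ (k : Mon) (z : Fin 4 → ℤ), (∀ i, |z i| ≤ (B : ℤ)) →
      |((mv k z : ℤ) : ℝ)| ≤ (B : ℝ) ^ 3 := by
    intro k z hz
    exact_mod_cast abs_mv_le hz k
  have hrR : |(r : ℝ)| ≤ W := by exact_mod_cast hr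
  have hsR : |(s : ℝ)| ≤ W := by exact_mod_cast hs
  have b1 : |θ| ≤ 2 * W * (B : ℝ) ^ 3 / |(D : ℝ)| := by
    rw [hθ, abs_div]
    apply div_le_div_of_nonneg_right _ hDpos.le
    refine (abs_sub _ _).trans ?_
    rw [abs_mul, abs_mul]
    have h1 := bound m' y hyB
    have h2 := bound m' x hxB
    calc |(r : ℝ)| * |((mv m' y : ℤ) : ℝ)| + |(s : ℝ)| * |((mv m' x : ℤ) : ℝ)|
        ≤ W * (B : ℝ) ^ 3 + W * (B : ℝ) ^ 3 := by gcongr
      _ = _ := by ring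
  have b2 : |θ'| ≤ 2 * W * (B : ℝ) ^ 3 / |(D : ℝ)| := by
    rw [hθ', abs_div]
    apply div_le_div_of_nonneg_right _ hDpos.le
    refine (abs_sub _ _).trans ?_
    rw [abs_mul, abs_mul]
    have h1 := bound m x hxB
    have h2 := bound m y hyB
    calc |(s : ℝ)| * |((mv m x : ℤ) : ℝ)| + |(r : ℝ)| * |((mv m y : ℤ) : ℝ)|
        ≤ W * (B : ℝ) ^ 3 + W * (B : ℝ) ^ 3 := by gcongr
      _ = _ := by ring
  refine ⟨θ • (Pi.single m (1 : ℝ) : Mon → ℝ) + θ' • (Pi.single m' (1 : ℝ) : Mon → ℝ), ?_, ?_, ?_⟩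
  · rw [ev_add, ev_smul, ev_smul, ev_single, ev_single, mv_cast, mv_cast, hθ, hθ']
    rw [div_mul_eq_mul_div, div_mul_eq_mul_div, ← add_div, div_eq_iff hDR, hDe]
    ring
  · rw [ev_add, ev_smul, ev_smul, ev_single, ev_single, mv_cast, mv_cast, hθ, hθ']
    rw [div_mul_eq_mul_div, div_mul_eq_mul_div, ← add_div, div_eq_iff hDR, hDe]
    ring
  · intro k
    have s1 : ∀ (t : ℝ) (l : Mon), |(t • (Pi.single l (1 : ℝ) : Mon → ℝ)) k| ≤ |t| := by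
      intro t l
      rw [Pi.smul_apply, smul_eq_mul, abs_mul]
      by_cases h : k = l
      · subst h; simp
      · rw [Pi.single_eq_of_ne h]; simp
    rw [Pi.add_apply]
    refine (abs_add_le _ _).trans ((add_le_add (s1 θ m) (s1 θ' m')).trans ?_)
    refine (add_le_add b1 b2).trans (le_of_eq ?_)
    ring

/-- an integral solution of small size -/
theorem small_sol (hc : Cov2Statement) (hD : DivStatement) {C₁ : ℕ}
    (hC₁ : ∀ (B : ℕ) (x y : Fin 4 → ℤ), x ∈ shell B → y ∈ shell B →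
      ∃ m m' : Mon, (B : ℤ) ^ 4 * (wd x y : ℤ) ≤ C₁ * |mv m x * mv m' y - mv m' x * mv m y|)
    {A B T W : ℕ} {x y : Fin 4 → ℤ} (hxG : x ∈ G A B) (hyG : y ∈ G A B) (hw : 0 < wd x y)
    (hBT : B ^ 2 ≤ T * wd x y) {r s : ℤ} (hr : |r| ≤ (W : ℤ)) (hs : |s| ≤ (W : ℤ))
    (hdr : (gd x y : ℤ) ∣ r) (hds : (gd x y : ℤ) ∣ s) :
    ∃ (S : ℕ) (c' : Mon → ℤ), ev c' x = r ∧ ev c' y = s ∧ (∀ k, |c' k| ≤ (S : ℤ)) ∧
      (S : ℝ) ≤ 4 * C₁ * (T * W) / (B : ℝ) ^ 3 + 1280 * (A : ℝ) ^ 2 := by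
  have hxs := (mem_G.1 hxG).1
  have hxg := (mem_G.1 hxG).2
  have hys := (mem_G.1 hyG).1
  have hyg := (mem_G.1 hyG).2
  have hB := shell_pos hxs
  have hB0 : (0 : ℝ) < B := by exact_mod_cast hB
  obtain ⟨m, m', hmm⟩ := hC₁ B x y hxs hys
  have hwZ : (0 : ℤ) < (wd x y : ℤ) := by exact_mod_cast hw
  have hD0 : mv m x * mv m' y - mv m' x * mv m y ≠ 0 := by
    intro h0
    rw [h0, abs_zero, mul_zero] at hmm
    have : (0 : ℤ) < (B : ℤ) ^ 4 * (wd x y : ℤ) := by positivity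
    linarith
  have hxB := (mem_shell.1 hxs).1
  have hyB := (mem_shell.1 hys).1
  obtain ⟨g, gx, gy, hg⟩ := cramer m m' x y r s B W hxB hyB hr hs hD0
  generalize mv m x * mv m' y - mv m' x * mv m y = D at hmm hD0 hg
  have hmmR : (B : ℝ) ^ 4 * (wd x y : ℝ) ≤ C₁ * |(D : ℝ)| := by
    have : (((B : ℤ) ^ 4 * (wd x y : ℤ) : ℤ) : ℝ) ≤ ((C₁ * |D| : ℤ) : ℝ) := Int.cast_le.2 hmm
    push_cast at this
    exact this
  have hDpos : 0 < |(D : ℝ)| := abs_pos.2 (by exact_mod_cast hD0)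
  have hBTR : (B : ℝ) ^ 2 ≤ T * (wd x y : ℝ) := by exact_mod_cast hBT
  have hgb : ∀ k, |g k| ≤ 4 * C₁ * (T * W) / (B : ℝ) ^ 3 := by
    intro k
    refine (hg k).trans ?_
    rw [div_le_div_iff₀ hDpos (by positivity)]
    have h1 : (B : ℝ) ^ 6 ≤ T * (C₁ * |(D : ℝ)|) := by
      calc (B : ℝ) ^ 6 = (B : ℝ) ^ 4 * (B : ℝ) ^ 2 := by ring
        _ ≤ (B : ℝ) ^ 4 * (T * (wd x y : ℝ)) := by gcongr
        _ = T * ((B : ℝ) ^ 4 * (wd x y : ℝ)) := by ring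
        _ ≤ T * (C₁ * |(D : ℝ)|) := by gcongr
    calc 4 * (W : ℝ) * (B : ℝ) ^ 3 * (B : ℝ) ^ 3 = 4 * W * (B : ℝ) ^ 6 := by ring
      _ ≤ 4 * W * (T * (C₁ * |(D : ℝ)|)) := by gcongr
      _ = 4 * C₁ * (T * W) * |(D : ℝ)| := by ring
  obtain ⟨κ, -, hκ⟩ := hD x y (mem_shell.1 hxs).2.1 (mem_shell.1 hys).2.1 hw
  obtain ⟨c, cx', cy'⟩ := hκ r s (dvd_sub hds (Dvd.dvd.mul_left hdr _))
  obtain ⟨c', c1, c2, c3⟩ := hc A x y hxg hyg hw g c _ (by rw [gx, cx']) (by rw [gy, cy']) hgb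
  refine ⟨⌊4 * C₁ * (T * W) / (B : ℝ) ^ 3 + 1280 * (A : ℝ) ^ 2⌋₊, c', by rw [c1, cx'],
    by rw [c2, cy'], ?_, Nat.floor_le (by positivity)⟩
  intro k
  have h1 : ((c' k).natAbs : ℝ) ≤ 4 * C₁ * (T * W) / (B : ℝ) ^ 3 + 1280 * (A : ℝ) ^ 2 := by
    have := c3 k
    rw [Nat.cast_natAbs, Int.cast_abs]
    exact this
  have h2 := Nat.le_floor h1
  rw [Int.abs_eq_natAbs]
  exact Int.ofNat_le.2 h2

theorem n2_mono (x y : Fin 4 → ℤ) {a b : ℕ} (hab : a ≤ b) : n2 x y 0 0 a ≤ n2 x y 0 0 b := by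
  have := n2_shift x y 0 0 0 0 a (b - a) 0 (by rw [ev_zero]; ring) (by rw [ev_zero]; ring)
    (fun k => by simp)
  rwa [Nat.add_sub_cancel' hab] at this

/-- sandwich -/
theorem sandwich (x y : Fin 4 → ℤ) (r s : ℤ) (H S : ℕ) (hSH : S ≤ H) (c : Mon → ℤ)
    (hx : ev c x = r) (hy : ev c y = s) (hc : ∀ m, |c m| ≤ (S : ℤ)) :
    |(n2 x y r s H : ℝ) - n2 x y 0 0 H| ≤
      (n2 x y 0 0 (H + S) : ℝ) - (n2 x y 0 0 (H - S) : ℝ) := by
  have u1 : n2 x y r s H ≤ n2 x y 0 0 (H + S) :=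
    n2_shift x y r s 0 0 H S (-c) (by rw [ev_neg, hx]; ring) (by rw [ev_neg, hy]; ring)
      (fun k => by rw [Pi.neg_apply, abs_neg]; exact hc k)
  have l1 : n2 x y 0 0 (H - S) ≤ n2 x y r s H := by
    have := n2_shift x y 0 0 r s (H - S) S c (by rw [hx]; ring) (by rw [hy]; ring) hc
    rwa [Nat.sub_add_cancel hSH] at this
  have l2 := n2_mono x y (Nat.sub_le H S)
  have u2 := n2_mono x y (Nat.le_add_right H S)
  have a1 : (n2 x y r s H : ℝ) ≤ (n2 x y 0 0 (H + S) : ℝ) := Nat.cast_le.2 u1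
  have a2 : (n2 x y 0 0 (H - S) : ℝ) ≤ (n2 x y r s H : ℝ) := Nat.cast_le.2 l1
  have a3 : (n2 x y 0 0 H : ℝ) ≤ (n2 x y 0 0 (H + S) : ℝ) := Nat.cast_le.2 u2
  have a4 : (n2 x y 0 0 (H - S) : ℝ) ≤ (n2 x y 0 0 H : ℝ) := Nat.cast_le.2 l2
  rw [abs_le]
  constructor <;> linarith

/-- Bernoulli -/
theorem bern {nU nL H e : ℝ} (hH : 0 < H) (he0 : 0 ≤ e) (he4 : e ≤ H / 4) (hnU : 0 ≤ nU)
    (h : nU * (H - e) ^ 20 ≤ nL * (H + e) ^ 20) : nU - nL ≤ nU * (40 * (e / H)) := by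
  have hHe : 0 < H + e := by linarith
  have hbern : (1 : ℝ) - 40 * (e / H) ≤ ((H - e) / (H + e)) ^ 20 := by
    have h1 : (H - e) / (H + e) = 1 + (-(2 * e / (H + e))) := by
      field_simp
      ring
    have h2 : 2 * e / (H + e) ≤ 1 := by
      rw [div_le_one hHe]
      linarith
    have h3 := one_add_mul_le_pow (a := -(2 * e / (H + e))) (by linarith) 20
    rw [h1]
    refine le_trans ?_ h3
    have h4 : 2 * e / (H + e) ≤ 2 * e / H := by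
      apply div_le_div_of_nonneg_left (by positivity) hH
      linarith
    have h5 : 2 * e / H = 2 * (e / H) := by ring
    push_cast
    linarith
  have h1 : nU * ((H - e) / (H + e)) ^ 20 ≤ nL := by
    rw [div_pow, mul_div_assoc', div_le_iff₀ (pow_pos hHe 20)]
    exact h
  have h2 : nU * (1 - 40 * (e / H)) ≤ nU * ((H - e) / (H + e)) ^ 20 :=
    mul_le_mul_of_nonneg_left hbern hnU
  linarith

/-- the final estimate -/
theorem fin_est {n nU nL H e Q C₁ C₂ g w Z : ℝ} (hn : n ≤ nU - nL)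
    (hd : nU - nL ≤ nU * (40 * (e / H))) (hw : 0 ≤ w) (hup : nU * w ≤ C₂ * (Z * H ^ 18) * g)
    (heH : e / H ≤ (4 * C₁ + 2560) * Q) (he : 0 ≤ e / H)
    (hg : 0 ≤ g) (hC₂ : 0 ≤ C₂) (hZ : 0 ≤ Z) (hH : 0 ≤ H) :
    n * w ≤ (40 * Z * C₂ * (4 * C₁ + 2560)) * (H ^ 18 * g * Q) := by
  calc n * w ≤ (nU * (40 * (e / H))) * w := mul_le_mul_of_nonneg_right (hn.trans hd) hw
    _ = (nU * w) * (40 * (e / H)) := by ring
    _ ≤ (C₂ * (Z * H ^ 18) * g) * (40 * ((4 * C₁ + 2560) * Q)) := by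
        apply mul_le_mul hup (by linarith) (by positivity) (by positivity)
    _ = _ := by ring

/-- Module MAIN2 -/
theorem main2 (hc : Cov2Statement) (hR : Reg2Statement) (hM : MinorStatement) (hD : DivStatement)
    (hU : Upper2Statement) : Main2Statement := by
  obtain ⟨C₁, hC₁⟩ := hM
  obtain ⟨C₂, hC₂⟩ := hU
  obtain ⟨Z, hZ⟩ : ∃ Z : ℕ, Z = 2 ^ 18 := ⟨_, rfl⟩
  refine ⟨20480 + 32 * C₁ + C₂ + 40 * Z * C₂ * (4 * C₁ + 2560), ?_⟩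
  intro A B H T W x y hxG hyG hw hAH hBT hTW r s hr hs hdr hds
  obtain ⟨S, c', c1, c2, hcS, hS1⟩ := small_sol hc hD hC₁ hxG hyG hw hBT hr hs hdr hds
  have hxg := (mem_G.1 hxG).2
  have hyg := (mem_G.1 hyG).2
  have hB := shell_pos (mem_G.1 hxG).1
  have hA := good_pos hxg
  have hA2 : 1 ≤ A ^ 2 := Nat.one_le_pow _ _ hA
  have hBR : (1 : ℝ) ≤ B := Nat.one_le_cast.2 hB
  have hB0 : (0 : ℝ) < B := by linarith
  obtain ⟨K, hK⟩ : ∃ K : ℕ, K = 40 * Z * C₂ * (4 * C₁ + 2560) := ⟨_, rfl⟩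
  rw [← hK] at hAH hTW ⊢
  have hAH1 : 20480 * A ^ 2 ≤ H := le_trans (Nat.mul_le_mul_right _ (by omega)) hAH
  have hAH2 : C₂ * A ^ 2 ≤ H := le_trans (Nat.mul_le_mul_right _ (by omega)) hAH
  have hH : 1 ≤ H := by omega
  have hHR : (1 : ℝ) ≤ H := Nat.one_le_cast.2 hH
  have hH0 : (0 : ℝ) < H := by linarith
  have hTW1 : 32 * C₁ * T * W ≤ H * B ^ 3 := by
    refine le_trans ?_ hTW
    have : 32 * C₁ ≤ 20480 + 32 * C₁ + C₂ + K := by omega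
    exact Nat.mul_le_mul_right _ (Nat.mul_le_mul_right _ this)
  have hTWR : 32 * (C₁ : ℝ) * T * W ≤ H * (B : ℝ) ^ 3 := by exact_mod_cast hTW1
  obtain ⟨b, hb⟩ : ∃ b : ℝ, b = 4 * C₁ * (T * W) / (B : ℝ) ^ 3 := ⟨_, rfl⟩
  rw [← hb] at hS1
  have hb0 : 0 ≤ b := by rw [hb]; positivity
  have hb8 : b ≤ H / 8 := by
    rw [hb, div_le_div_iff₀ (by positivity) (by norm_num)]
    linarith
  have hAR : 20480 * (A : ℝ) ^ 2 ≤ H := by exact_mod_cast hAH1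
  obtain ⟨e, he⟩ : ∃ e : ℝ, e = S + 1280 * (A : ℝ) ^ 2 := ⟨_, rfl⟩
  have hA0 : 0 ≤ (A : ℝ) ^ 2 := sq_nonneg _
  have he1 : e ≤ b + 2560 * (A : ℝ) ^ 2 := by rw [he]; linarith
  have he4 : e ≤ H / 4 := by linarith
  have he0 : 0 ≤ e := by rw [he]; positivity
  have hSH : S ≤ H := by
    have : (S : ℝ) ≤ H := by linarith
    exact_mod_cast this
  have hSH' : 1280 * A ^ 2 ≤ H - S := by
    have h1 : (1280 * (A : ℝ) ^ 2) ≤ (H : ℝ) - S := by linarith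
    have h2 : ((1280 * A ^ 2 : ℕ) : ℝ) ≤ ((H - S : ℕ) : ℝ) := by
      rw [Nat.cast_sub hSH]
      push_cast
      exact h1
    exact_mod_cast h2
  have hsw := sandwich x y r s H S hSH c' c1 c2 hcS
  have hreg := hR A x y hxg hyg hw (H - S) (H + S) hSH' (by omega)
  have hup := hC₂ A B (2 * H) x y hxG hyG hw (by omega) 0 0
  have u3 := n2_mono x y (show H + S ≤ 2 * H by omega)
  generalize n2 x y 0 0 (H + S) = NU at hsw hreg u3
  generalize n2 x y 0 0 (H - S) = NL at hsw hreg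
  generalize n2 x y 0 0 (2 * H) = N2 at hup u3
  rw [Nat.cast_sub hSH, Nat.cast_add] at hreg
  have hreg' : (NU : ℝ) * ((H : ℝ) - e) ^ 20 ≤ NL * ((H : ℝ) + e) ^ 20 := by
    have e1 : (H : ℝ) - S - 1280 * (A : ℝ) ^ 2 = H - e := by rw [he]; ring
    have e2 : (H : ℝ) + S + 1280 * (A : ℝ) ^ 2 = H + e := by rw [he]; ring
    rw [e1, e2] at hreg
    exact hreg
  have hdiff := bern hH0 he0 he4 (Nat.cast_nonneg NU) hreg'
  have hupR : (NU : ℝ) * ((B : ℝ) ^ 4 * wd x y) ≤ C₂ * (Z * (H : ℝ) ^ 18) * gd x y := by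
    have h0 : NU * (B ^ 4 * wd x y) ≤ C₂ * (Z * H ^ 18) * gd x y := by
      calc NU * (B ^ 4 * wd x y) ≤ N2 * (B ^ 4 * wd x y) := Nat.mul_le_mul_right _ u3
        _ ≤ C₂ * (2 * H) ^ 18 * gd x y := hup
        _ = C₂ * (Z * H ^ 18) * gd x y := by rw [mul_pow, hZ]
    exact_mod_cast h0
  obtain ⟨Q, hQ⟩ : ∃ Q : ℝ, Q = T * W / (H * (B : ℝ) ^ 3) + (A : ℝ) ^ 2 / H := ⟨_, rfl⟩
  have heH : e / H ≤ (4 * C₁ + 2560) * Q := by
    have h1 : e / H ≤ (b + 2560 * (A : ℝ) ^ 2) / H := div_le_div_of_nonneg_right he1 hH0.le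
    refine h1.trans ?_
    have h2 : (b + 2560 * (A : ℝ) ^ 2) / H =
        4 * C₁ * (T * W / (H * (B : ℝ) ^ 3)) + 2560 * ((A : ℝ) ^ 2 / H) := by
      rw [hb]
      field_simp
    rw [h2, hQ]
    have p1 : (0 : ℝ) ≤ T * W / (H * (B : ℝ) ^ 3) := by positivity
    have p2 : (0 : ℝ) ≤ (A : ℝ) ^ 2 / H := by positivity
    have p3 : (0 : ℝ) ≤ C₁ := Nat.cast_nonneg _
    have p4 := mul_nonneg p3 p2
    have e3 : (4 * (C₁ : ℝ) + 2560) * (T * W / (H * (B : ℝ) ^ 3) + (A : ℝ) ^ 2 / H) =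
        4 * C₁ * (T * W / (H * (B : ℝ) ^ 3)) + 2560 * (T * W / (H * (B : ℝ) ^ 3)) +
          4 * (C₁ * ((A : ℝ) ^ 2 / H)) + 2560 * ((A : ℝ) ^ 2 / H) := by ring
    rw [e3]
    linarith
  have hQ0 : 0 ≤ Q := by rw [hQ]; positivity
  rw [← hQ]
  have hfin := fin_est hsw hdiff (by positivity : (0 : ℝ) ≤ (B : ℝ) ^ 4 * wd x y) hupR heH
    (by positivity) (Nat.cast_nonneg (gd x y)) (Nat.cast_nonneg C₂) (Nat.cast_nonneg Z) hH0.le
  refine hfin.trans ?_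
  have hKR : (40 * (Z : ℝ) * C₂ * (4 * C₁ + 2560)) = (K : ℝ) := by
    rw [hK]
    push_cast
    ring
  rw [hKR]
  have hKle : (K : ℝ) ≤ ((20480 + 32 * C₁ + C₂ + K : ℕ) : ℝ) := Nat.cast_le.2 (by omega)
  calc (K : ℝ) * ((H : ℝ) ^ 18 * gd x y * Q)
      ≤ ((20480 + 32 * C₁ + C₂ + K : ℕ) : ℝ) * ((H : ℝ) ^ 18 * gd x y * Q) :=
        mul_le_mul_of_nonneg_right hKle (by positivity)
    _ = _ := by ring

end Cub.H22
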