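import Pool.Agent.Lib.MP_95ac01_nt.Iface

/-!
# MP_95ac01_nt: module UPPER1 (helper22)
-/

set_option autoImplicit false

namespace Cub.H22

open Finset Cub

theorem shell_pos {B : ℕ} {x : Fin 4 → ℤ} (hx : x ∈ shell B) : 1 ≤ B := by
  rw [mem_shell] at hx
  obtain ⟨h1, -, i, hi⟩ := hx
  have := h1 i
  omega

theorem shell_ne {B : ℕ} {x : Fin 4 → ℤ} (hx : x ∈ shell B) : x ≠ 0 := by
  rw [mem_shell] at hx
  obtain ⟨h1, -, i, hi⟩ := hx
  rintro rfl
  simp at hi
  omega

theorem good_pos {A : ℕ} {x : Fin 4 → ℤ} (h : Good A x) : 1 ≤ A := by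
  obtain ⟨l, hli, -, hb⟩ := h
  by_contra hA
  have h0 : l 0 = 0 := by
    ext i
    have := hb 0 i
    have hA' : A = 0 := by omega
    rw [hA'] at this
    simpa using this
  exact hli.ne_zero 0 h0

/-- differences of solutions -/
theorem n1_le (x : Fin 4 → ℤ) (r : ℤ) (H : ℕ) : n1 x r H ≤ n1 x 0 (2 * H) := by
  classical
  unfold n1
  rcases ((box H).filter fun c => ev c x = r).eq_empty_or_nonempty with h | ⟨c₀, hc₀⟩
  · rw [h]
    simp
  · rw [mem_filter, mem_box] at hc₀
    apply Finset.card_le_card_of_injOn (fun c => c - c₀)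
    · intro c hc
      rw [mem_coe, mem_filter, mem_box] at hc
      rw [mem_coe, mem_filter, mem_box]
      refine ⟨fun m => ?_, ?_⟩
      · have h1 := hc.1 m
        have h2 := hc₀.1 m
        change |c m - c₀ m| ≤ _
        push_cast
        calc |c m - c₀ m| ≤ |c m| + |c₀ m| := abs_sub _ _
          _ ≤ _ := by linarith
      · change ev (c - c₀) x = 0
        rw [ev_sub, hc.2, hc₀.2, sub_self]
    · intro c _ c' _ h
      exact sub_left_injective h

/-- Module UPPER1 -/
theorem upper1 (h1 : Cov1Statement) : Upper1Statement := by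
  classical
  refine ⟨1280 + 8 * 11 ^ 20, ?_⟩
  intro A B H x hx hAH r
  rw [mem_G] at hx
  obtain ⟨hxs, hxg⟩ := hx
  have hB := shell_pos hxs
  have hx0 := shell_ne hxs
  have hA := good_pos hxg
  have hA2 : 1 ≤ A ^ 2 := Nat.one_le_pow _ _ hA
  have hAH' : 1280 * A ^ 2 ≤ H := by
    refine le_trans (Nat.mul_le_mul_right _ ?_) hAH
    omega
  have hH : 1 ≤ H := by omega
  rw [mem_shell] at hxs
  obtain ⟨hxB, hxp, i, hi⟩ := hxs
  set X : ℕ := (x i).natAbs with hX
  have hXi : |x i| = (X : ℤ) := by rw [hX]; exact Int.abs_eq_natAbs _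
  have hXB : B < 2 * X := by rw [hXi] at hi; exact_mod_cast hi
  have hxi : x i ≠ 0 := by
    intro h0
    rw [h0] at hi
    simp at hi
    omega
  obtain ⟨u, hu⟩ := hxp
  -- the residues
  have hF : ∀ ρ : ℕ, ∃ c : Mon → ℤ, ρ < X ^ 3 → ev c x = ρ ∧ ∀ m, |(c m : ℝ)| ≤ 1 + 1280 * (A : ℝ) ^ 2 := by
    intro ρ
    by_cases hρ : ρ < X ^ 3
    · have hxR : (x i : ℝ) ≠ 0 := by exact_mod_cast hxi
      obtain ⟨c', hc1, hc2⟩ := h1 A x hxg hx0
        (((ρ : ℝ) / (x i : ℝ) ^ 3) • (Pi.single (mon3 i i i) (1 : ℝ) : Mon → ℝ))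
        ((ρ : ℤ) • p3 u u u) 1 (by
          rw [ev_smul, ev_single, mv_mon3, ev_smul, ev_p3, hu]
          simp only [cx]
          push_cast
          field_simp) (by
          intro m
          rw [Pi.smul_apply, smul_eq_mul, abs_mul]
          have h3 : |(ρ : ℝ) / (x i : ℝ) ^ 3| ≤ 1 := by
            rw [abs_div, abs_pow, div_le_one (by positivity)]
            have h4 : |(x i : ℝ)| = (X : ℝ) := by exact_mod_cast hXi
            rw [h4, abs_of_nonneg (Nat.cast_nonneg _)]
            exact_mod_cast hρ.le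
          have h4 : |(Pi.single (mon3 i i i) (1 : ℝ) : Mon → ℝ) m| ≤ 1 := by
            by_cases h : m = mon3 i i i
            · subst h; simp
            · rw [Pi.single_eq_of_ne h]; simp
          nlinarith [abs_nonneg ((ρ : ℝ) / (x i : ℝ) ^ 3),
            abs_nonneg ((Pi.single (mon3 i i i) (1 : ℝ) : Mon → ℝ) m)])
      refine ⟨c', fun _ => ⟨?_, hc2⟩⟩
      rw [hc1, ev_smul, ev_p3, hu]
      simp
    · exact ⟨0, fun h => absurd h hρ⟩
  choose F hF using hF
  -- the injection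
  have hinj : (((box (2 * H)).filter fun c => ev c x = 0) ×ˢ (range H ×ˢ range (X ^ 3))).card ≤
      (box (5 * H)).card := by
    apply Finset.card_le_card_of_injOn (fun p => p.1 + (p.2.1 : ℤ) •
      (Pi.single (mon3 i i i) (1 : ℤ) : Mon → ℤ) + F p.2.2)
    · rintro ⟨c, a, ρ⟩ hp
      simp only [coe_product, Set.mem_prod, mem_coe, mem_filter, mem_box, mem_range] at hp
      obtain ⟨⟨hc, -⟩, ha, hρ⟩ := hp
      rw [mem_coe, mem_box]
      intro m
      have h2 : |F ρ m| ≤ 1 + 1280 * (A : ℤ) ^ 2 := by exact_mod_cast (hF ρ hρ).2 m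
      have h3 : |((a : ℤ) • (Pi.single (mon3 i i i) (1 : ℤ) : Mon → ℤ)) m| ≤ (H : ℤ) := by
        rw [Pi.smul_apply, smul_eq_mul]
        by_cases h : m = mon3 i i i
        · subst h
          rw [Pi.single_eq_same, mul_one, abs_of_nonneg (Int.natCast_nonneg _)]
          exact_mod_cast ha.le
        · rw [Pi.single_eq_of_ne h, mul_zero, abs_zero]
          exact Int.natCast_nonneg _
      have h4 := hc m
      have h5 : (1280 : ℤ) * (A : ℤ) ^ 2 ≤ H := by exact_mod_cast hAH'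
      have h6 : (1 : ℤ) ≤ H := by exact_mod_cast hH
      simp only [Pi.add_apply]
      push_cast at h4 ⊢
      calc |c m + ((a : ℤ) • (Pi.single (mon3 i i i) (1 : ℤ) : Mon → ℤ)) m + F ρ m|
          ≤ |c m + ((a : ℤ) • (Pi.single (mon3 i i i) (1 : ℤ) : Mon → ℤ)) m| + |F ρ m| :=
            abs_add_le _ _
        _ ≤ |c m| + |((a : ℤ) • (Pi.single (mon3 i i i) (1 : ℤ) : Mon → ℤ)) m| + |F ρ m| := by
            have := abs_add_le (c m) (((a : ℤ) • (Pi.single (mon3 i i i) (1 : ℤ) : Mon → ℤ)) m)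
            linarith
        _ ≤ 5 * (H : ℤ) := by linarith
    · rintro ⟨c, a, ρ⟩ hp ⟨c', a', ρ'⟩ hp' he
      simp only [coe_product, Set.mem_prod, mem_coe, mem_filter, mem_box, mem_range] at hp hp'
      obtain ⟨⟨-, hc⟩, ha, hρ⟩ := hp
      obtain ⟨⟨-, hc'⟩, ha', hρ'⟩ := hp'
      have he' := congrArg (fun f => ev f x) he
      simp only [ev_add, ev_smul, ev_single, mv_mon3, hc, hc', (hF ρ hρ).1, (hF ρ' hρ').1,
        zero_add, one_mul] at he'
      have hval : (a : ℤ) * (x i * x i * x i) + ρ = (a' : ℤ) * (x i * x i * x i) + ρ' := he'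
      have hd : ((X ^ 3 : ℕ) : ℤ) ∣ (ρ : ℤ) - ρ' := by
        have h7 : (ρ : ℤ) - ρ' = (x i) ^ 3 * ((a' : ℤ) - a) := by linear_combination hval
        rw [h7]
        have h8 : ((X ^ 3 : ℕ) : ℤ) = |x i| ^ 3 := by rw [hXi]; push_cast; rfl
        rw [h8, ← abs_pow]
        exact Dvd.dvd.mul_right ((abs_dvd _ _).2 dvd_rfl) _
      have hρρ : ρ = ρ' := by
        have h9 : |(ρ : ℤ) - ρ'| < ((X ^ 3 : ℕ) : ℤ) := by
          rw [abs_lt]
          constructor <;> push_cast <;> [skip; skip]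
          · have : (ρ' : ℤ) < (X : ℤ) ^ 3 := by exact_mod_cast hρ'
            have : (0 : ℤ) ≤ ρ := Int.natCast_nonneg _
            linarith
          · have : (ρ : ℤ) < (X : ℤ) ^ 3 := by exact_mod_cast hρ
            have : (0 : ℤ) ≤ ρ' := Int.natCast_nonneg _
            linarith
        have h10 := Int.eq_zero_of_abs_lt_dvd hd h9
        omega
      subst hρρ
      have haa : a = a' := by
        have h11 : ((a : ℤ) - a') * (x i * x i * x i) = 0 := by linear_combination hval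
        rcases mul_eq_zero.1 h11 with h12 | h12
        · omega
        · exfalso
          exact mul_ne_zero (mul_ne_zero hxi hxi) hxi h12
      subst haa
      have hcc : c = c' := by
        have : c + (a : ℤ) • (Pi.single (mon3 i i i) (1 : ℤ) : Mon → ℤ) + F ρ =
          c' + (a : ℤ) • (Pi.single (mon3 i i i) (1 : ℤ) : Mon → ℤ) + F ρ := he
        exact add_right_cancel (add_right_cancel this)
      rw [hcc]
  rw [card_product, card_product, card_range, card_range, card_box] at hinj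
  have hn := n1_le x r H
  have hn' : n1 x r H * (H * X ^ 3) ≤ (11 * H) ^ 20 := by
    calc n1 x r H * (H * X ^ 3) ≤ n1 x 0 (2 * H) * (H * X ^ 3) := Nat.mul_le_mul_right _ hn
      _ ≤ (2 * (5 * H) + 1) ^ 20 := hinj
      _ ≤ (11 * H) ^ 20 := Nat.pow_le_pow_left (by omega) _
  have hB3 : B ^ 3 ≤ 8 * X ^ 3 := by
    calc B ^ 3 ≤ (2 * X) ^ 3 := Nat.pow_le_pow_left hXB.le _
      _ = 8 * X ^ 3 := by ring
  have hfin : H * (n1 x r H * B ^ 3) ≤ H * (8 * 11 ^ 20 * H ^ 19) := by
    calc H * (n1 x r H * B ^ 3) ≤ H * (n1 x r H * (8 * X ^ 3)) := by gcongr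
      _ = 8 * (n1 x r H * (H * X ^ 3)) := by ring
      _ ≤ 8 * (11 * H) ^ 20 := Nat.mul_le_mul_left _ hn'
      _ = H * (8 * 11 ^ 20 * H ^ 19) := by ring
  have hfin' := Nat.le_of_mul_le_mul_left hfin hH
  exact hfin'.trans (Nat.mul_le_mul_right _ (by omega))

end Cub.H22
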